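import Pool.Agent.helper82.SW.SpecW

/-! # sp: module WAD: adjacency, sites, sides -/

namespace Pool.Agent.helper82.SW

open MeasureTheory Filter Topology TopologicalSpace
open scoped BoundedContinuousFunction

theorem AD_re (v : ℤ × ℤ) : (SpectralPivotal.pos v).re = v.1 + v.2 / 2 := rfl

theorem AD_im (v : ℤ × ℤ) : (SpectralPivotal.pos v).im = √3 / 2 * v.2 := rfl

theorem AD_sqrt : √3 * √3 = 3 := Real.mul_self_sqrt (by norm_num)

theorem AD_sqrt_pos : 0 < √3 := Real.sqrt_pos.mpr (by norm_num)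

theorem AD_adj (u v : ℤ × ℤ) : SpectralPivotal.Adj u v ↔ SC.TAdj u v := by
  obtain ⟨i, j⟩ := u
  obtain ⟨k, l⟩ := v
  have h1 : SpectralPivotal.Adj (i, j) (k, l) ↔
      (k - i) ^ 2 + (k - i) * (l - j) + (l - j) ^ 2 = 1 := by
    unfold SpectralPivotal.Adj
    rw [Complex.dist_eq_re_im, Real.sqrt_eq_one]
    simp only [AD_re, AD_im]
    have h3 := AD_sqrt
    constructor
    · intro h
      have : ((k : ℝ) - i) ^ 2 + (k - i) * (l - j) + (l - j) ^ 2 = 1 := by
        rw [← h]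
        have e : (√3 / 2 * (j : ℝ) - √3 / 2 * (l : ℝ)) ^ 2 = (√3 * √3) / 4 * ((j : ℝ) - l) ^ 2 := by ring
        rw [e, h3]
        ring
      exact_mod_cast this
    · intro h
      have : ((k : ℝ) - i) ^ 2 + (k - i) * (l - j) + (l - j) ^ 2 = 1 := by exact_mod_cast h
      rw [← this]
      have e : (√3 / 2 * (j : ℝ) - √3 / 2 * (l : ℝ)) ^ 2 = (√3 * √3) / 4 * ((j : ℝ) - l) ^ 2 := by ring
      rw [e, h3]
      ring
  rw [h1]
  simp only [SC.TAdj, Prod.mk.injEq]
  constructor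
  · intro h
    obtain ⟨a, ha⟩ : ∃ a, k = i + a := ⟨k - i, by ring⟩
    obtain ⟨b, hb⟩ : ∃ b, l = j + b := ⟨l - j, by ring⟩
    subst ha hb
    have e1 : i + a - i = a := by ring
    have e2 : j + b - j = b := by ring
    rw [e1, e2] at h
    have ha1 : a ≤ 1 := by nlinarith [sq_nonneg (a + 2 * b), sq_nonneg (a - 1)]
    have ha2 : -1 ≤ a := by nlinarith [sq_nonneg (a + 2 * b), sq_nonneg (a + 1)]
    have hb1 : b ≤ 1 := by nlinarith [sq_nonneg (2 * a + b), sq_nonneg (b - 1)]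
    have hb2 : -1 ≤ b := by nlinarith [sq_nonneg (2 * a + b), sq_nonneg (b + 1)]
    have hac : a = -1 ∨ a = 0 ∨ a = 1 := by omega
    have hbc : b = -1 ∨ b = 0 ∨ b = 1 := by omega
    rcases hac with rfl | rfl | rfl <;> rcases hbc with rfl | rfl | rfl <;> simp at h ⊢ <;> omega
  · rintro (⟨rfl, rfl⟩ | ⟨rfl, rfl⟩ | ⟨rfl, rfl⟩ | ⟨rfl, rfl⟩ | ⟨rfl, rfl⟩ | ⟨rfl, rfl⟩) <;> ring

theorem AD_le (n j : ℕ) : √3 / 2 * (j : ℝ) ≤ n ↔ 3 * j ^ 2 ≤ 4 * n ^ 2 := by
  have h3 := AD_sqrt
  have hp := AD_sqrt_pos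
  have h4 : (3 * j ^ 2 ≤ 4 * n ^ 2) ↔ (3 * (j : ℝ) ^ 2 ≤ 4 * (n : ℝ) ^ 2) := by
    constructor
    · intro h; exact_mod_cast h
    · intro h; exact_mod_cast h
  rw [h4]
  have h5 : 3 * (j : ℝ) ^ 2 = (√3 * j) ^ 2 := by
    rw [mul_pow, sq √3, h3]
  have h6 : 4 * (n : ℝ) ^ 2 = (2 * n) ^ 2 := by ring
  rw [h5, h6, sq_le_sq₀ (by positivity) (by positivity)]
  constructor <;> intro h <;> linarith

theorem AD_top (n : ℕ) : SC.top n = TP.hh n := by
  apply eq_of_forall_le_iff
  intro j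
  rw [SC.top_spec, ← AD_le]
  unfold TP.hh
  have hp := AD_sqrt_pos
  rw [Nat.le_floor_iff (by positivity), le_div_iff₀ hp]
  constructor <;> intro h <;> linarith

theorem AD_sites (n : ℕ) (v : ℤ × ℤ) : v ∈ SpectralPivotal.sites n ↔ v ∈ SC.Usq n := by
  rw [SC.mem_Usq]
  have hp := AD_sqrt_pos
  unfold SpectralPivotal.sites
  rw [Set.mem_ofPred_eq, AD_re, AD_im]
  obtain ⟨a, b⟩ := v
  simp only
  have h1 : (0 ≤ (a : ℝ) + b / 2) ↔ 0 ≤ 2 * a + b := by
    constructor
    · intro h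
      have : (0 : ℝ) ≤ 2 * a + b := by linarith
      exact_mod_cast this
    · intro h
      have : (0 : ℝ) ≤ 2 * a + b := by exact_mod_cast h
      linarith
  have h2 : ((a : ℝ) + b / 2 ≤ n) ↔ 2 * a + b ≤ 2 * n := by
    constructor
    · intro h
      have : (2 : ℝ) * a + b ≤ 2 * n := by linarith
      exact_mod_cast this
    · intro h
      have : (2 : ℝ) * a + b ≤ 2 * n := by exact_mod_cast h
      linarith
  have h3 : (0 ≤ √3 / 2 * (b : ℝ)) ↔ 0 ≤ b := by
    rw [mul_nonneg_iff_of_pos_left (by positivity)]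
    exact Int.cast_nonneg_iff
  rw [h1, h2, h3]
  constructor
  · rintro ⟨h4, h5, h6, h7⟩
    refine ⟨h6, ?_, h4, h5⟩
    obtain ⟨m, rfl⟩ := Int.eq_ofNat_of_zero_le h6
    have h8 : √3 / 2 * (m : ℝ) ≤ n := by exact_mod_cast h7
    rw [AD_le, ← SC.top_spec] at h8
    exact_mod_cast h8
  · rintro ⟨h6, h7, h4, h5⟩
    refine ⟨h4, h5, h6, ?_⟩
    obtain ⟨m, rfl⟩ := Int.eq_ofNat_of_zero_le h6
    have h8 : m ≤ SC.top n := by exact_mod_cast h7
    rw [SC.top_spec, ← AD_le] at h8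
    exact_mod_cast h8

theorem AD : AD_stmt := by
  refine ⟨AD_adj, AD_sites, AD_top, ?_, ?_, ?_⟩
  · rintro n ⟨a, b⟩ hu
    constructor
    · constructor
      · rintro ⟨⟨c, d⟩, h1, h2⟩
        rw [AD_adj] at h1
        rw [AD_re] at h2
        simp only at h2
        have h3 : (2 : ℝ) * c + d < 0 := by linarith
        have h4 : 2 * c + d < 0 := by exact_mod_cast h3
        simp only [SC.TAdj, Prod.mk.injEq] at h1
        show 2 * a + b ≤ 1
        omega
      · intro h
        simp only at h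
        refine ⟨(a - 1, b), ?_, ?_⟩
        · rw [AD_adj]
          right; left
          rfl
        · rw [AD_re]
          simp only
          have h4 : (2 : ℝ) * a + b ≤ 1 := by exact_mod_cast h
          push_cast
          linarith
    · constructor
      · rintro ⟨⟨c, d⟩, h1, h2⟩
        rw [AD_adj] at h1
        rw [AD_re] at h2
        simp only at h2
        have h3 : (2 : ℝ) * n < 2 * c + d := by linarith
        have h4 : 2 * (n : ℤ) < 2 * c + d := by exact_mod_cast h3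
        simp only [SC.TAdj, Prod.mk.injEq] at h1
        show 2 * (n : ℤ) - 1 ≤ 2 * a + b
        omega
      · intro h
        simp only at h
        refine ⟨(a + 1, b), ?_, ?_⟩
        · rw [AD_adj]
          left
          rfl
        · rw [AD_re]
          simp only
          have h4 : (2 : ℝ) * n - 1 ≤ 2 * a + b := by exact_mod_cast h
          push_cast
          linarith
  · rintro i ⟨a, b⟩
    unfold TP.VV
    simp only [Finset.mem_filter, Finset.mem_product, Finset.mem_Icc]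
    constructor
    · rintro ⟨⟨⟨h1, h2⟩, h3, h4⟩, h5⟩
      refine ⟨((a - b) / 2, b), ?_, ?_⟩
      · rw [SC.mem_Usq, AD_top]
        simp only
        push_cast
        refine ⟨h3, h4, by omega, by omega⟩
      · unfold sh
        simp only [Prod.mk.injEq, and_true]
        omega
    · rintro ⟨⟨c, d⟩, h1, h2⟩
      unfold sh at h2
      simp only [Prod.mk.injEq] at h2
      rw [SC.mem_Usq, AD_top] at h1
      simp only at h1
      push_cast at h1
      obtain ⟨h3, h4, h5, h6⟩ := h1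
      obtain ⟨h7, h8⟩ := h2
      subst h8
      refine ⟨⟨⟨by omega, by omega⟩, h3, h4⟩, by omega⟩
  · rintro ⟨a, b⟩ ⟨c, d⟩ h
    unfold sh at h
    simp only [Prod.mk.injEq] at h ⊢
    omega

end Pool.Agent.helper82.SW
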